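import Pool.Agent.H380.BG.Stm
import Pool.Agent.H575.RD.D2

/-!
Task GA: the discriminant as a cusp form on Gamma0(1).
-/

set_option autoImplicit false

namespace Pool.Agent.H102.BG

open Complex MeasureTheory Filter Topology Set MatrixGroups CongruenceSubgroup
open UpperHalfPlane hiding I
open Pool.Agent.X3.Tau (tau)
open Pool.Agent.H380.BG

theorem gamma0_one : Gamma0 1 = ⊤ := by
  ext A
  simp only [Gamma0_mem, Subgroup.mem_top, iff_true]
  exact Subsingleton.elim _ _

theorem gamma0_one_GL : (Gamma0 1 : Subgroup (GL (Fin 2) ℝ)) = 𝒮ℒ := by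
  rw [gamma0_one, ← MonoidHom.range_eq_map]

theorem transport (G G' : Subgroup (GL (Fin 2) ℝ)) (h : G' = G) (g : CuspForm G 12) :
    ∃ f : CuspForm G' 12, ∀ z : ℍ, f z = g z := by
  subst h
  exact ⟨g, fun _ => rfl⟩

theorem t_GA : S_GA := by
  obtain ⟨f, hf⟩ := transport _ _ gamma0_one_GL CuspForm.discriminant
  refine ⟨f, hf, fun n => ?_⟩
  have h : (f : ℍ → ℂ) = (CuspForm.discriminant : ℍ → ℂ) := funext hf
  rw [h]
  exact Pool.Agent.H575.RD.coeff_tau n

end Pool.Agent.H102.BG
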